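import Pool.Agent.H76.Dasbach.Lower

/-!
# Dasbach's conjecture on four-loop uni-trivalent diagrams fails

The conjectured generating function has the coefficient `38` at `t ^ 20`, but
`β_{23,20} ≥ 39`.

The lower bound comes from the weight systems of `gl_5` and of `so_7` with a semisimple element at
the legs: 39 such functionals on `𝓑` are linearly independent on 39 explicit connected graphs with
first Betti number four and 20 legs.
-/

namespace Pool.Agent.Results.MP_628b81_gt.DasbachFails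

open Pool.Agent.H76.Dasbach

open PowerSeries in
lemma coeff_eq :
    PowerSeries.coeff 20 ((1 + (X : ℚ⟦X⟧) ^ 2 + X ^ 8 - X ^ 10)
      * ((1 - X ^ 2) * (1 - X ^ 4) * (1 - X ^ 6) * (1 - X ^ 10))⁻¹) = 38 := by
  set D : ℚ⟦X⟧ := (1 - X ^ 2) * (1 - X ^ 4) * (1 - X ^ 6) * (1 - X ^ 10) with hD
  set P : ℚ⟦X⟧ := 1 + 2 * X ^ 2 + 3 * X ^ 4 + 5 * X ^ 6 + 8 * X ^ 8 + 10 * X ^ 10 + 15 * X ^ 12
    + 19 * X ^ 14 + 24 * X ^ 16 + 31 * X ^ 18 + 38 * X ^ 20 with hP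
  set Q : ℚ⟦X⟧ := - 46 * X ^ 1 - 10 * X ^ 3 + 36 * X ^ 5 + 44 * X ^ 7 + 7 * X ^ 9 + 7 * X ^ 11
    + 10 * X ^ 13 - 36 * X ^ 15 - 45 * X ^ 17 - 7 * X ^ 19 + 38 * X ^ 21 with hQ
  have h1 : 1 + X ^ 2 + X ^ 8 - X ^ 10 = D * P - X ^ 21 * Q := by
    rw [hD, hP, hQ]; ring
  have hc : constantCoeff D ≠ 0 := by
    rw [hD]
    simp
  have h2 : D * D⁻¹ = 1 := PowerSeries.mul_inv_cancel D hc
  have h3 : (1 + X ^ 2 + X ^ 8 - X ^ 10) * D⁻¹ = P - X ^ 21 * (Q * D⁻¹) := by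
    rw [h1]
    calc (D * P - X ^ 21 * Q) * D⁻¹ = (D * D⁻¹) * P - X ^ 21 * (Q * D⁻¹) := by ring
      _ = _ := by rw [h2, one_mul]
  rw [h3, map_sub, PowerSeries.coeff_X_pow_mul', if_neg (by norm_num), sub_zero, hP]
  simp only [map_add]
  have hm : ∀ (a : ℚ⟦X⟧) (n : ℕ) (q : ℚ), a = PowerSeries.C q →
      PowerSeries.coeff 20 (a * X ^ n) = if 20 = n then q else 0 := by
    intro a n q ha
    rw [ha, PowerSeries.coeff_C_mul, PowerSeries.coeff_X_pow]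
    split_ifs <;> simp
  rw [hm 2 2 2 (map_ofNat _ _).symm, hm 3 4 3 (map_ofNat _ _).symm, hm 5 6 5 (map_ofNat _ _).symm, hm 8 8 8 (map_ofNat _ _).symm,
    hm 10 10 10 (map_ofNat _ _).symm, hm 15 12 15 (map_ofNat _ _).symm, hm 19 14 19 (map_ofNat _ _).symm, hm 24 16 24 (map_ofNat _ _).symm,
    hm 31 18 31 (map_ofNat _ _).symm, hm 38 20 38 (map_ofNat _ _).symm, PowerSeries.coeff_one]
  norm_num

open PowerSeries in
/-- **Dasbach's conjecture is false.**  The coefficient of `t ^ 20` of the conjectured generating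
function is `38`, but `β_{23,20} ≥ 39`; hence the generating function of the numbers `β_{k+3,k}` is
not the conjectured one. -/
theorem result :
    PowerSeries.coeff 20 ((1 + (X : ℚ⟦X⟧) ^ 2 + X ^ 8 - X ^ 10)
      * ((1 - X ^ 2) * (1 - X ^ 4) * (1 - X ^ 6) * (1 - X ^ 10))⁻¹) = 38 ∧
    39 ≤ beta 23 20 ∧
    PowerSeries.mk (fun k : ℕ => (beta (k + 3) k : ℚ)) ≠ (1 + (X : ℚ⟦X⟧) ^ 2 + X ^ 8 - X ^ 10)
      * ((1 - X ^ 2) * (1 - X ^ 4) * (1 - X ^ 6) * (1 - X ^ 10))⁻¹ := by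
  refine ⟨coeff_eq, beta_ge, fun h => ?_⟩
  have h1 := congrArg (PowerSeries.coeff 20) h
  rw [coeff_eq, PowerSeries.coeff_mk] at h1
  have h2 : beta (20 + 3) 20 = 38 := by exact_mod_cast h1
  have h3 : 39 ≤ beta (20 + 3) 20 := beta_ge
  omega

end Pool.Agent.Results.MP_628b81_gt.DasbachFails
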